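import Pool.Agent.helper23.CO.SpecB

/-!
# co:EXT
-/

set_option autoImplicit false

open Finset Filter Topology

namespace CO

open CU

theorem EXT_sg (a b : Bool) : sg a * sg b = 1 - 2 * (if a ≠ b then (1 : ℝ) else 0) := by
  cases a <;> cases b <;> simp [sg] <;> norm_num

theorem EXT_HN {d n : ℕ} [NeZero n] (σ : Conf d n) :
    HN σ = (Fintype.card (Site d n) : ℝ) * d - 2 * ((brk σ).card : ℝ) := by
  unfold HN
  have h1 : ∀ x : Site d n, ∀ i : Fin d, sg (σ x) * sg (σ (x + ev i)) =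
      1 - 2 * (if σ x ≠ σ (x + ev i) then (1 : ℝ) else 0) := fun x i => EXT_sg _ _
  simp only [h1]
  have h2 : ∑ x : Site d n, ∑ i : Fin d, (1 - 2 * (if σ x ≠ σ (x + ev i) then (1 : ℝ) else 0)) =
      (∑ x : Site d n, ∑ i : Fin d, (1 : ℝ)) -
        2 * ∑ x : Site d n, ∑ i : Fin d, (if σ x ≠ σ (x + ev i) then (1 : ℝ) else 0) := by
    rw [mul_sum, ← sum_sub_distrib]
    refine sum_congr rfl fun x _ => ?_
    rw [mul_sum, ← sum_sub_distrib]
  rw [h2]
  have h3 : ∑ x : Site d n, ∑ i : Fin d, (1 : ℝ) = (Fintype.card (Site d n) : ℝ) * d := by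
    simp
  have h4 : ∑ x : Site d n, ∑ i : Fin d, (if σ x ≠ σ (x + ev i) then (1 : ℝ) else 0) = ((brk σ).card : ℝ) := by
    rw [← Fintype.sum_prod_type' (fun (x : Site d n) (i : Fin d) => if σ x ≠ σ (x + ev i) then (1 : ℝ) else 0)]
    unfold brk
    rw [card_filter]
    push_cast
    rfl
  rw [h3, h4]

theorem EXT_HH {d n : ℕ} [NeZero n] (β : ℝ) (σ : Conf d n) :
    CWM.HH (KT β fun _ => 0) (fun _ => 0) σ = β * HN σ := by
  unfold CWM.HH KT HN
  have h1 : ∑ x : Site d n, (0 : ℝ) * sg (σ x) = 0 := by simp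
  rw [h1, add_zero, mul_sum]
  refine sum_congr rfl fun x _ => ?_
  have h2 : ∀ y : Site d n, (β * (∑ i : Fin d, if y = x + ev i then (1 : ℝ) else 0) + 0) *
      (sg (σ x) * sg (σ y)) = β * ∑ i : Fin d, (if y = x + ev i then sg (σ x) * sg (σ y) else 0) := by
    intro y
    rw [add_zero, mul_assoc, sum_mul]
    refine congrArg (fun t => β * t) (sum_congr rfl fun i _ => ?_)
    split_ifs <;> ring
  simp only [h2]
  rw [← mul_sum, sum_comm]
  refine congrArg (fun t => β * t) (sum_congr rfl fun i _ => ?_)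
  rw [sum_ite_eq' univ (x + ev i) (fun y => sg (σ x) * sg (σ y))]
  simp

theorem EXT_exp {d n : ℕ} [NeZero n] (β : ℝ) (σ : Conf d n) :
    Real.exp (CWM.HH (KT β fun _ => 0) (fun _ => 0) σ) =
      Real.exp (β * ((Fintype.card (Site d n) : ℝ) * d)) * W β σ := by
  rw [EXT_HH, EXT_HN]
  unfold W
  rw [← Real.exp_add]
  congr 1
  ring

theorem EXT_ratio {α : Type} (S T : Finset α) (c : ℝ) (hc : c ≠ 0) (u v f : α → ℝ)
    (h : ∀ a, u a = c * v a) :
    (∑ a ∈ S, u a * f a) / (∑ a ∈ T, u a) = (∑ a ∈ S, v a * f a) / ∑ a ∈ T, v a := by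
  have h1 : ∑ a ∈ S, u a * f a = c * ∑ a ∈ S, v a * f a := by
    rw [mul_sum]
    refine sum_congr rfl fun a _ => ?_
    rw [h]
    ring
  have h2 : ∑ a ∈ T, u a = c * ∑ a ∈ T, v a := by
    rw [mul_sum]
    exact sum_congr rfl fun a _ => h a
  rw [h1, h2, mul_div_mul_left _ _ hc]

theorem EXT : EXT_stmt := by
  intro d n _ β
  have hc : Real.exp (β * ((Fintype.card (Site d n) : ℝ) * d)) ≠ 0 := (Real.exp_pos _).ne'
  refine ⟨fun f => ?_, fun D f => ?_, fun A => ?_⟩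
  · exact (EXT_ratio univ univ _ hc _ _ f (EXT_exp β)).symm
  · have h1 : PlusOn D = pl (univ \ D) := by
      unfold PlusOn pl
      ext σ
      simp
    unfold ExD exA
    rw [h1]
    exact (EXT_ratio _ _ _ hc _ _ f (EXT_exp β)).symm
  · have h2 := EXT_ratio (pl A) univ _ hc _ _ (fun _ => (1 : ℝ)) (EXT_exp (d := d) (n := n) β)
    simp only [mul_one] at h2
    unfold PrE Ex pr
    rw [h2]
    congr 1
    unfold pl
    rw [sum_filter]
    refine sum_congr rfl fun σ _ => ?_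
    by_cases h : ∀ x ∈ A, σ x = true
    · rw [if_pos h, Set.indicator_of_mem (show σ ∈ {σ : Conf d n | ∀ x ∈ A, σ x = true} from h), mul_one]
    · rw [if_neg h, Set.indicator_of_notMem (show σ ∉ {σ : Conf d n | ∀ x ∈ A, σ x = true} from h), mul_zero]

end CO
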