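import Pool.Agent.helper23.CO.SpecB

/-!
# co:UPB
-/

set_option autoImplicit false

open Finset Filter Topology

namespace CO

open CU

theorem UPB (hUPA : UPA_stmt) (hMSP : MSP_stmt) (hVF : CU.VF_stmt) : UPB_stmt := by
  intro d β κ C hβ hκ hC
  obtain ⟨hms, -, hML, -⟩ := hMSP d
  obtain ⟨L, hL⟩ := hML β (κ / 4) hβ (by positivity)
  obtain ⟨hm0, hmL, hL1⟩ := hms β L hβ
  have hLL := hL L le_rfl
  refine ⟨L, ?_⟩
  -- the error term
  have herr : Tendsto (fun n : ℕ => 2 * (Real.exp (12 * (C / ((n : ℝ) + 3)) * (2 * (L : ℝ) + 1) ^ d) - 1))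
      atTop (𝓝 0) := by
    have h1 : Tendsto (fun n : ℕ => C / ((n : ℝ) + 3)) atTop (𝓝 0) :=
      tendsto_const_nhds.div_atTop (tendsto_atTop_add_const_right _ _ tendsto_natCast_atTop_atTop)
    have h2 : Tendsto (fun n : ℕ => 2 * (Real.exp (12 * (C / ((n : ℝ) + 3)) * (2 * (L : ℝ) + 1) ^ d) - 1))
        atTop (𝓝 (2 * (Real.exp (12 * 0 * (2 * (L : ℝ) + 1) ^ d) - 1))) := by
      refine (((Real.continuous_exp.tendsto _).comp ((h1.const_mul 12).mul_const _)).sub_const 1).const_mul 2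
    simpa using h2
  filter_upwards [herr.eventually (gt_mem_nhds (show (0 : ℝ) < κ / 2 by positivity)), eventually_ge_atTop (2 * L)]
    with n hn hnL J h hh0 hh hJ hJs
  have hn3 : (0 : ℝ) < (n : ℝ) + 3 := by positivity
  have hT : 0 ≤ C / ((n : ℝ) + 3) := by positivity
  obtain ⟨h1, h2⟩ := hUPA d (n + 3) L (by omega) β h (C / ((n : ℝ) + 3)) J hβ hh0 hJ hJs hh
  have hVF' : ExD β (Box L 0) (fun σ : Conf d (n + 3) => sg (σ 0)) = CS.ML d β L := hVF d β L n hnL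
  have hp : (0 : ℝ) ≤ (2 * (L : ℝ) + 1) ^ d := by positivity
  have herr6 : 2 * (Real.exp (6 * (C / ((n : ℝ) + 3)) * (2 * (L : ℝ) + 1) ^ d) - 1) ≤ κ / 2 := by
    refine le_trans ?_ hn.le
    have h3 : Real.exp (6 * (C / ((n : ℝ) + 3)) * (2 * (L : ℝ) + 1) ^ d) ≤
        Real.exp (12 * (C / ((n : ℝ) + 3)) * (2 * (L : ℝ) + 1) ^ d) := by
      apply Real.exp_le_exp.2
      apply mul_le_mul_of_nonneg_right _ hp
      linarith
    linarith
  constructor
  · intro A x hA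
    have h3 := h1 A x hA
    rw [hVF'] at h3
    linarith
  · intro x hx
    have h3 := h2 0 x hx
    rw [hVF'] at h3
    have h4 : CS.ML d β L ^ 2 ≤ ms d β ^ 2 + κ / 2 := by nlinarith
    unfold cT
    linarith

end CO
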